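import Mathlib
import Pool.Graph.R_seed8.R736.SK.Core

set_option autoImplicit false
set_option linter.all false

/-! Spaces with two ordinal coordinates `≤ ω₁` and a rank function; basic facts. -/

open Ordinal Set Order Topology Filter

namespace OM72

open Pool.Agent.R736.SK

/-- `(f, g)` is a closed embedding of `X` into `(ω₁+1)²` (spelled out), and `r` is its
Cantor-Bendixson rank (the two local properties that determine it). -/
structure Sq {X : Type} [TopologicalSpace X] (f g r : X → Ordinal.{0}) : Prop where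
  cf : Continuous f
  cg : Continuous g
  inj : ∀ p q, f p = f q → g p = g q → p = q
  nb : ∀ p, ∀ N ∈ 𝓝 p, ∃ A ∈ 𝓝 (f p), ∃ B ∈ 𝓝 (g p), ∀ q, f q ∈ A → g q ∈ B → q ∈ N
  cl : ∀ a b, (∀ A ∈ 𝓝 a, ∀ B ∈ 𝓝 b, ∃ q, f q ∈ A ∧ g q ∈ B) → ∃ p, f p = a ∧ g p = b
  lf : ∀ p, f p ≤ ω₁
  lg : ∀ p, g p ≤ ω₁
  ra : ∀ p, ∃ N ∈ 𝓝 p, ∀ q ∈ N, q ≠ p → r q < r p
  rb : ∀ p, ∀ β < r p, ∀ N ∈ 𝓝 p, ∃ q ∈ N, q ≠ p ∧ β ≤ r q

variable {X : Type} [TopologicalSpace X] {f g r : X → Ordinal.{0}}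

theorem Sq.swap (h : Sq f g r) : Sq g f r where
  cf := h.cg
  cg := h.cf
  inj p q h1 h2 := h.inj p q h2 h1
  nb p N hN := by
    obtain ⟨A, hA, B, hB, h1⟩ := h.nb p N hN
    exact ⟨B, hB, A, hA, fun q h2 h3 => h1 q h3 h2⟩
  cl a b h1 := by
    obtain ⟨p, h2, h3⟩ := h.cl b a (fun A hA B hB => by
      obtain ⟨q, h4, h5⟩ := h1 B hB A hA
      exact ⟨q, h5, h4⟩)
    exact ⟨p, h3, h2⟩
  lf := h.lg
  lg := h.lf
  ra := h.ra
  rb := h.rb

theorem isOpen_Iic' (a : Ordinal.{0}) : IsOpen (Set.Iic a) := by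
  have : Set.Iic a = Set.Iio (a + 1) := by
    ext x; simp [Order.lt_add_one_iff]
  rw [this]; exact isOpen_Iio

/-- neighbourhoods contain convex neighbourhoods -/
theorem convex_nhd {u : Ordinal.{0}} {A : Set Ordinal.{0}} (hA : A ∈ 𝓝 u) :
    ∃ A' ∈ 𝓝 u, ∀ v ∈ A', v ≤ u ∧ ∀ w, v ≤ w → w ≤ u → w ∈ A := by
  by_cases h0 : ∃ l, l < u
  · obtain ⟨l, hl, h1⟩ := exists_Ioc_subset_of_mem_nhds hA h0
    refine ⟨Set.Ioi l ∩ Set.Iic u, ?_, ?_⟩
    · exact Filter.inter_mem (isOpen_Ioi.mem_nhds hl) ((isOpen_Iic' u).mem_nhds (Set.mem_Iic.2 le_rfl))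
    · rintro v ⟨h2, h3⟩
      exact ⟨h3, fun w h4 h5 => h1 ⟨lt_of_lt_of_le h2 h4, h5⟩⟩
  · refine ⟨Set.Iic u, (isOpen_Iic' u).mem_nhds (Set.mem_Iic.2 le_rfl), ?_⟩
    intro v hv
    refine ⟨hv, fun w h4 h5 => ?_⟩
    have : w = u := by
      rcases h5.lt_or_eq with h6 | h6
      · exact absurd ⟨w, h6⟩ h0
      · exact h6
    rw [this]
    exact mem_of_mem_nhds hA

/-- below a limit of `P`-points -/
theorem nhd_lt {u : Ordinal.{0}} {A : Set Ordinal.{0}} (hA : A ∈ 𝓝 u) (h0 : 0 < u) :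
    ∃ l < u, ∀ w, l < w → w ≤ u → w ∈ A := by
  obtain ⟨l, hl, h1⟩ := exists_Ioc_subset_of_mem_nhds hA ⟨0, h0⟩
  exact ⟨l, hl, fun w h2 h3 => h1 ⟨h2, h3⟩⟩

theorem omega1_pos : (0 : Ordinal.{0}) < ω₁ := (Cardinal.isSuccLimit_omega 1).pos

theorem omega1_succ {a : Ordinal.{0}} (h : a < ω₁) : succ a < ω₁ :=
  (Cardinal.isSuccLimit_omega 1).succ_lt h

/-- if every set of a countable neighbourhood ... -/
theorem Sq.attain (h : Sq f g r) (β : Ordinal.{0}) : ∀ (γ : Ordinal.{0}) (p : X), r p = γ → β ≤ γ →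
    ∀ N ∈ 𝓝 p, ∃ q ∈ N, r q = β := by
  intro γ
  induction γ using WellFoundedLT.induction with
  | ind γ ih =>
    intro p hp hβ N hN
    rcases hβ.eq_or_lt with h1 | h1
    · exact ⟨p, mem_of_mem_nhds hN, hp.trans h1.symm⟩
    · obtain ⟨N', hN', hlt⟩ := h.ra p
      have hN2 : interior (N ∩ N') ∈ 𝓝 p := interior_mem_nhds.2 (Filter.inter_mem hN hN')
      obtain ⟨q, hq, hne, hr⟩ := h.rb p β (hp ▸ h1) _ hN2
      have h2 : r q < γ := hp ▸ hlt q (interior_subset hq).2 hne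
      have h3 : N ∩ N' ∈ 𝓝 q := mem_interior_iff_mem_nhds.1 hq
      exact ih (r q) h2 q rfl hr N (Filter.mem_of_superset h3 Set.inter_subset_left)

theorem Sq.rank_countable (h : Sq f g r) {p : X} {N : Set X} (hN : N ∈ 𝓝 p) (hc : N.Countable) :
    r p < ω₁ := by
  by_contra hcon
  push Not at hcon
  have hc2 : Countable {q : X // q ∈ N ∧ r q < ω₁} := by
    have : {q : X | q ∈ N ∧ r q < ω₁}.Countable := hc.mono fun q hq => hq.1
    exact this.to_subtype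
  have hs : (⨆ q : {q : X // q ∈ N ∧ r q < ω₁}, succ (r q.1)) < ω₁ :=
    Ordinal.iSup_lt_omega_one fun q => omega1_succ q.2.2
  obtain ⟨q, hq, hr⟩ := h.attain _ (r p) p rfl (hs.le.trans hcon) N hN
  have h1 : succ (r q) ≤ ⨆ q : {q : X // q ∈ N ∧ r q < ω₁}, succ (r q.1) :=
    Ordinal.le_iSup (fun q : {q : X // q ∈ N ∧ r q < ω₁} => succ (r q.1)) ⟨q, hq, hr ▸ hs⟩
  rw [← hr] at h1
  exact absurd (Order.lt_succ (r q)) (not_lt.2 h1)

theorem Sq.countable_box (h : Sq f g r) {a b : Ordinal.{0}} (ha : a < ω₁) (hb : b < ω₁) :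
    {q : X | f q ≤ a ∧ g q ≤ b}.Countable := by
  have h1 : (Set.Iic a ×ˢ Set.Iic b).Countable := by
    have := countable_Iic ha
    have := countable_Iic hb
    exact Set.Countable.prod (Set.to_countable _) (Set.to_countable _)
  refine Set.MapsTo.countable_of_injOn (f := fun q => (f q, g q)) (t := Set.Iic a ×ˢ Set.Iic b) ?_ ?_ h1
  · intro q hq
    exact ⟨hq.1, hq.2⟩
  · intro q hq q' hq' he
    simp only [Prod.mk.injEq] at he
    exact h.inj q q' he.1 he.2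

theorem Sq.rank_lt (h : Sq f g r) {p : X} (h1 : f p < ω₁) (h2 : g p < ω₁) : r p < ω₁ := by
  refine h.rank_countable (N := {q : X | f q ≤ f p ∧ g q ≤ g p}) ?_ (h.countable_box h1 h2)
  exact Filter.inter_mem (h.cf.continuousAt.preimage_mem_nhds ((isOpen_Iic' _).mem_nhds (Set.mem_Iic.2 le_rfl)))
    (h.cg.continuousAt.preimage_mem_nhds ((isOpen_Iic' _).mem_nhds (Set.mem_Iic.2 le_rfl)))

/-- A property of `b` is *closing* if it holds for all closure points of some function. -/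
def Closes (P : Ordinal.{0} → Prop) : Prop :=
  ∃ F : Ordinal.{0} → Ordinal.{0} → Ordinal.{0}, (∀ a < ω₁, ∀ c < ω₁, F a c < ω₁) ∧
    ∀ b, 0 < b → b < ω₁ → (∀ a < b, succ a < b) → (∀ a < b, ∀ c < b, F a c < b) → P b

theorem Closes.and {P Q : Ordinal.{0} → Prop} (hP : Closes P) (hQ : Closes Q) :
    Closes fun b => P b ∧ Q b := by
  obtain ⟨F, hF, h1⟩ := hP
  obtain ⟨G, hG, h2⟩ := hQ
  refine ⟨fun a c => max (F a c) (G a c), fun a ha c hc => max_lt (hF a ha c hc) (hG a ha c hc), ?_⟩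
  intro b hb0 hb hs h3
  exact ⟨h1 b hb0 hb hs fun a ha c hc => lt_of_le_of_lt (le_max_left _ _) (h3 a ha c hc),
    h2 b hb0 hb hs fun a ha c hc => lt_of_le_of_lt (le_max_right _ _) (h3 a ha c hc)⟩

theorem Closes.mono {P Q : Ordinal.{0} → Prop} (hP : Closes P) (h : ∀ b, b < ω₁ → P b → Q b) :
    Closes Q := by
  obtain ⟨F, hF, h1⟩ := hP
  exact ⟨F, hF, fun b hb0 hb hs h3 => h b hb (h1 b hb0 hb hs h3)⟩

theorem closes_rel (R : Ordinal.{0} → Ordinal.{0} → Ordinal.{0} → Prop)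
    (h : ∀ a < ω₁, ∀ c < ω₁, ∃ d < ω₁, R a c d) : Closes fun b => ∀ a < b, ∀ c < b, ∃ d < b, R a c d := by
  classical
  refine ⟨fun a c => if h : ∃ d < ω₁, R a c d then h.choose else 0, ?_, ?_⟩
  · intro a ha c hc
    simp only [h a ha c hc, dif_pos]
    exact (h a ha c hc).choose_spec.1
  · intro b hb0 hb hs h3 a ha c hc
    have h4 := h3 a ha c hc
    have h5 := h a (ha.trans hb) c (hc.trans hb)
    simp only [h5, dif_pos] at h4
    exact ⟨h5.choose, h4, h5.choose_spec.2⟩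

theorem Closes.exists {P : Ordinal.{0} → Prop} (hP : Closes P) {a : Ordinal.{0}} (ha : a < ω₁) :
    ∃ b, a < b ∧ b < ω₁ ∧ P b := by
  obtain ⟨F, hF, h1⟩ := hP
  obtain ⟨b, hb, hab, hs, h2⟩ := exists_closure F hF ha
  exact ⟨b, hab, hb, h1 b (lt_of_le_of_lt zero_le hab) hb hs h2⟩

/-! ### from the Cantor-Bendixson derivatives -/

theorem height_spec (hX : ∀ x : X, ∃ α : Ordinal.{0}, x ∈ cb X α ∧ x ∉ cb X (α + 1)) :
    ∃ r : X → Ordinal.{0}, ∀ x β, x ∈ cb X β ↔ β ≤ r x := by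
  choose r hr using hX
  refine ⟨r, fun x β => ⟨fun h => ?_, fun h => cb_antitone h (hr x).1⟩⟩
  by_contra hcon
  push Not at hcon
  exact (hr x).2 (cb_antitone (Order.add_one_le_of_lt hcon) h)

theorem ra_of {r : X → Ordinal.{0}} (hr : ∀ x β, x ∈ cb X β ↔ β ≤ r x) (p : X) :
    ∃ N ∈ 𝓝 p, ∀ q ∈ N, q ≠ p → r q < r p := by
  have h1 : p ∉ cb X (r p + 1) := by
    rw [hr]
    exact not_le.2 (Order.lt_add_one_iff.2 le_rfl)
  have h2 : p ∈ cb X (r p) := (hr _ _).2 le_rfl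
  rw [cb_succ] at h1
  by_contra hcon
  push Not at hcon
  apply h1
  refine ⟨h2, fun V hV hpV => ?_⟩
  obtain ⟨q, hq, hne, hle⟩ := hcon V (hV.mem_nhds hpV)
  exact ⟨q, (hr _ _).2 hle, hq, hne⟩

theorem rb_of {r : X → Ordinal.{0}} (hr : ∀ x β, x ∈ cb X β ↔ β ≤ r x) (p : X) (β : Ordinal.{0})
    (hβ : β < r p) (N : Set X) (hN : N ∈ 𝓝 p) : ∃ q ∈ N, q ≠ p ∧ β ≤ r q := by
  have h1 : p ∈ cb X (β + 1) := (hr _ _).2 (Order.add_one_le_of_lt hβ)
  rw [cb_succ] at h1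
  obtain ⟨y, hy, hyV, hne⟩ := h1.2 (interior N) isOpen_interior (mem_interior_iff_mem_nhds.2 hN)
  exact ⟨y, interior_subset hyV, hne, (hr _ _).1 hy⟩

theorem canonicallySkula_of {r : X → Ordinal.{0}} (hr : ∀ x β, x ∈ cb X β ↔ β ≤ r x) (U : X → Set X)
    (h1 : ∀ p, IsClopen (U p)) (h2 : ∀ p, p ∈ U p) (h3 : ∀ p, ∀ q ∈ U p, q ≠ p → r q < r p)
    (h4 : ∀ p, ∀ q ∈ U p, U q ⊆ U p) : CanonicallySkula X := by
  refine ⟨U, ⟨h1, h2, ?_, h4⟩, ?_⟩
  · intro x y hne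
    by_contra hcon
    push Not at hcon
    exact lt_asymm (h3 y x hcon.1 hne) (h3 x y hcon.2 hne.symm)
  · intro x α hx hx1 y hy hyα
    by_contra hne
    have h5 := h3 x y hy hne
    rw [hr] at hx hyα
    rw [hr] at hx1
    push Not at hx1
    have : r x ≤ α := Order.lt_add_one_iff.1 hx1
    exact absurd (lt_of_lt_of_le h5 this) (not_lt.2 hyα)

/-- points of a subspace of `(ω₁+1)²` have heights -/
theorem height_exists (f g : X → Ordinal.{0}) (cf : Continuous f) (cg : Continuous g)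
    (inj : ∀ p q, f p = f q → g p = g q → p = q) (x : X) :
    ∃ α : Ordinal.{0}, x ∈ cb X α ∧ x ∉ cb X (α + 1) := by
  suffices H : ∀ (a b : Ordinal.{0}) (x : X), f x = a → g x = b → ∃ γ : Ordinal.{0}, x ∉ cb X γ by
    obtain ⟨γ, hγ⟩ := H _ _ x rfl rfl
    exact exists_height hγ
  intro a
  induction a using WellFoundedLT.induction with
  | ind a iha =>
    intro b
    induction b using WellFoundedLT.induction with
    | ind b ihb =>
      intro x hxa hxb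
      have key : ∀ q : X, f q ≤ a → g q ≤ b → q ≠ x → ∃ γ : Ordinal.{0}, q ∉ cb X γ := by
        intro q h1 h2 hne
        rcases h1.lt_or_eq with h3 | h3
        · exact iha (f q) h3 (g q) q rfl rfl
        · rcases h2.lt_or_eq with h4 | h4
          · exact ihb (g q) h4 q h3 rfl
          · exact absurd (inj q x (h3.trans hxa.symm) (h4.trans hxb.symm)) hne
      choose! γ hγ using key
      let σ : Ordinal.{0} := ⨆ q : {q : X // f q ≤ a ∧ g q ≤ b ∧ q ≠ x}, γ q.1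
      refine ⟨σ + 1, fun hmem => ?_⟩
      rw [cb_succ] at hmem
      have hop : IsOpen {q : X | f q ≤ a ∧ g q ≤ b} :=
        ((isOpen_Iic' a).preimage cf).inter ((isOpen_Iic' b).preimage cg)
      obtain ⟨y, hy, hyV, hne⟩ := hmem.2 _ hop ⟨hxa.le, hxb.le⟩
      have h5 : γ y ≤ σ := Ordinal.le_iSup (fun q : {q : X // f q ≤ a ∧ g q ≤ b ∧ q ≠ x} => γ q.1)
        ⟨y, hyV.1, hyV.2, hne⟩
      exact hγ y hyV.1 hyV.2 hne (cb_antitone h5 hy)

end OM72
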