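import Mathlib
import Pool.Agent.OM_72.Rank

set_option autoImplicit false
set_option linter.all false

/-! Reflection at closure points below `ω₁`. -/

open Ordinal Set Order Topology Filter

namespace OM72

open Pool.Agent.R736.SK

variable {X : Type} [TopologicalSpace X] {f g r : X → Ordinal.{0}}

/-- the columns that are unbounded below `ω₁` -/
def Sc (f g : X → Ordinal.{0}) : Set Ordinal.{0} :=
  {z | z < ω₁ ∧ ∀ β < ω₁, ∃ p, f p = z ∧ β < g p ∧ g p < ω₁}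

theorem Sq.lt_of_near (h : Sq f g r) (p : X) (β : Ordinal.{0})
    (H : ∀ A ∈ 𝓝 (f p), ∀ B ∈ 𝓝 (g p), ∃ q, q ≠ p ∧ f q ∈ A ∧ g q ∈ B ∧ β ≤ r q) : β < r p := by
  obtain ⟨N, hN, h1⟩ := h.ra p
  obtain ⟨A, hA, B, hB, h2⟩ := h.nb p N hN
  obtain ⟨q, hne, hqA, hqB, hβ⟩ := H A hA B hB
  exact lt_of_le_of_lt hβ (h1 q (h2 q hqA hqB) hne)

theorem Sq.lim_point (h : Sq f g r) {φ : Ordinal.{0} → Ordinal.{0}} (hφ : Continuous φ)
    {δ : Ordinal.{0}} (hδ : 0 < δ) (H : ∀ l < δ, ∃ p, f p = φ (g p) ∧ l < g p ∧ g p < δ) :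
    ∃ p, f p = φ δ ∧ g p = δ := by
  refine h.cl _ _ fun A hA B hB => ?_
  have h1 : φ ⁻¹' A ∩ B ∈ 𝓝 δ := Filter.inter_mem (hφ.continuousAt.preimage_mem_nhds hA) hB
  obtain ⟨l, hl, h2⟩ := nhd_lt h1 hδ
  obtain ⟨p, h3, h4, h5⟩ := H l hl
  have h6 := h2 (g p) h4 h5.le
  exact ⟨p, by rw [h3]; exact h6.1, h6.2⟩

theorem Sq.lim_rank (h : Sq f g r) {φ : Ordinal.{0} → Ordinal.{0}} (hφ : Continuous φ)
    {δ : Ordinal.{0}} (hδ : 0 < δ) {β : Ordinal.{0}}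
    (H : ∀ l < δ, ∃ p, f p = φ (g p) ∧ l < g p ∧ g p < δ ∧ β ≤ r p) {p : X} (hp : f p = φ δ)
    (hp' : g p = δ) : β < r p := by
  refine h.lt_of_near p β fun A hA B hB => ?_
  rw [hp] at hA
  rw [hp'] at hB
  have h1 : φ ⁻¹' A ∩ B ∈ 𝓝 δ := Filter.inter_mem (hφ.continuousAt.preimage_mem_nhds hA) hB
  obtain ⟨l, hl, h2⟩ := nhd_lt h1 hδ
  obtain ⟨q, h3, h4, h5, h6⟩ := H l hl
  have h7 := h2 (g q) h4 h5.le
  refine ⟨q, ?_, by rw [h3]; exact h7.1, h7.2, h6⟩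
  rintro rfl
  exact absurd h5 (by rw [hp']; exact lt_irrefl _)

theorem Sq.club (h : Sq f g r) {φ : Ordinal.{0} → Ordinal.{0}} (hφ : Continuous φ)
    (hunb : ∀ β < ω₁, ∃ p, f p = φ (g p) ∧ β < g p ∧ g p < ω₁) :
    ∀ α < ω₁, ∀ y < ω₁, ∃ p, f p = φ (g p) ∧ y < g p ∧ g p < ω₁ ∧ α ≤ r p := by
  intro α
  induction α using WellFoundedLT.induction with
  | ind α ih =>
    intro hα y hy
    have hR := closes_rel (fun β y d => ∃ p, f p = φ (g p) ∧ g p = d ∧ y < d ∧ (β < α → β ≤ r p)) (by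
      intro β hβ y hy
      by_cases hlt : β < α
      · obtain ⟨p, h1, h2, h3, h4⟩ := ih β hlt hβ y hy
        exact ⟨g p, h3, p, h1, rfl, h2, fun _ => h4⟩
      · obtain ⟨p, h1, h2, h3⟩ := hunb y hy
        exact ⟨g p, h3, p, h1, rfl, h2, fun h4 => absurd h4 hlt⟩)
    obtain ⟨δ, h1, h2, h3⟩ := hR.exists (max_lt hα hy)
    have hδ0 : 0 < δ := lt_of_le_of_lt zero_le h1
    have hαδ : α < δ := lt_of_le_of_lt (le_max_left _ _) h1
    have hyδ : y < δ := lt_of_le_of_lt (le_max_right _ _) h1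
    obtain ⟨p, hp, hp'⟩ := h.lim_point hφ hδ0 (fun l hl => by
      obtain ⟨d, hd, q, h4, h5, h6, _⟩ := h3 0 hδ0 l hl
      exact ⟨q, h4, h5 ▸ h6, h5 ▸ hd⟩)
    refine ⟨p, by rw [hp, hp'], hp' ▸ hyδ, hp' ▸ h2, ?_⟩
    refine le_of_forall_lt fun β hβ => ?_
    refine h.lim_rank hφ hδ0 (fun l hl => ?_) hp hp'
    obtain ⟨d, hd, q, h4, h5, h6, h7⟩ := h3 β (hβ.trans hαδ) l hl
    exact ⟨q, h4, h5 ▸ h6, h5 ▸ hd, h7 hβ⟩

theorem Sq.club_col (h : Sq f g r) {z : Ordinal.{0}} (hz : z ∈ Sc f g) :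
    ∀ y < ω₁, ∃ p, f p = z ∧ y < g p ∧ g p < ω₁ ∧ y ≤ r p := by
  intro y hy
  exact h.club (φ := fun _ => z) continuous_const hz.2 y hy y hy

theorem Sq.sc_point (h : Sq f g r) {z : Ordinal.{0}} (hz : z ∈ Sc f g) :
    ∃ p, f p = z ∧ g p = ω₁ :=
  h.lim_point (φ := fun _ => z) continuous_const omega1_pos hz.2

theorem Sq.sc_rank (h : Sq f g r) {p : X} (hz : f p ∈ Sc f g) (hp : g p = ω₁) : ω₁ ≤ r p := by
  refine le_of_forall_lt fun β hβ => ?_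
  refine h.lim_rank (φ := fun _ => f p) continuous_const omega1_pos (fun l hl => ?_) rfl hp
  obtain ⟨q, h1, h2, h3, h4⟩ := h.club_col hz _ (max_lt hl hβ)
  exact ⟨q, h1, lt_of_le_of_lt (le_max_left _ _) h2, h3, (le_max_right _ _).trans h4⟩

/-- reflection properties of `δ` -/
structure Gd (f g r : X → Ordinal.{0}) (γ0 δ : Ordinal.{0}) : Prop where
  g1 : ∀ p, f p < δ → g p < δ → r p < δ
  g2 : ∀ p, f p < δ → f p ∉ Sc f g → g p < ω₁ → g p < δ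
  g3 : ∀ z ∈ Sc f g, z < δ → ∀ y < δ, ∃ p, f p = z ∧ y < g p ∧ g p < δ ∧ y ≤ r p
  g4 : ∀ p, f p = g p → f p = δ → ∀ y < δ, ∃ p', f p' = g p' ∧ y < g p' ∧ g p' < δ ∧ y ≤ r p'
  g5 : ∀ p0, g p0 = ω₁ → f p0 < δ → f p0 ∈ Sc f g → γ0 < f p0 → ∀ y < δ,
    ∃ q d, y < d ∧ d < δ ∧ r p0 ≤ r q ∧ ((f q = d ∧ g q = ω₁) ∨ (f q = ω₁ ∧ g q = d))

/-- the choice of `γ0` -/
def Cor (f g r : X → Ordinal.{0}) (γ0 : Ordinal.{0}) : Prop :=
  ∀ q, γ0 < f q → γ0 < g q → ∃ p, f p = ω₁ ∧ g p = ω₁ ∧ (q ≠ p → r q < r p)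

theorem Cor.swap {γ0 : Ordinal.{0}} (h : Cor f g r γ0) : Cor g f r γ0 := by
  intro q h1 h2
  obtain ⟨p, h3, h4, h5⟩ := h q h2 h1
  exact ⟨p, h4, h3, h5⟩

theorem Sq.exists_cor (h : Sq f g r) : ∃ γ0 < ω₁, Cor f g r γ0 := by
  by_cases hc : ∃ p, f p = ω₁ ∧ g p = ω₁
  · obtain ⟨p, hp, hp'⟩ := hc
    obtain ⟨N, hN, h1⟩ := h.ra p
    obtain ⟨A, hA, B, hB, h2⟩ := h.nb p N hN
    rw [hp] at hA
    rw [hp'] at hB
    obtain ⟨l, hl, h3⟩ := nhd_lt hA omega1_pos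
    obtain ⟨l', hl', h4⟩ := nhd_lt hB omega1_pos
    refine ⟨max l l', max_lt hl hl', fun q h5 h6 => ⟨p, hp, hp', fun hne => ?_⟩⟩
    exact h1 q (h2 q (h3 _ (lt_of_le_of_lt (le_max_left _ _) h5) (h.lf q))
      (h4 _ (lt_of_le_of_lt (le_max_right _ _) h6) (h.lg q))) hne
  · have : ¬ ∀ A ∈ 𝓝 (ω₁ : Ordinal.{0}), ∀ B ∈ 𝓝 (ω₁ : Ordinal.{0}), ∃ q, f q ∈ A ∧ g q ∈ B :=
      fun h1 => hc (h.cl _ _ h1)
    push Not at this
    obtain ⟨A, hA, B, hB, h2⟩ := this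
    obtain ⟨l, hl, h3⟩ := nhd_lt hA omega1_pos
    obtain ⟨l', hl', h4⟩ := nhd_lt hB omega1_pos
    refine ⟨max l l', max_lt hl hl', fun q h5 h6 => ?_⟩
    exact absurd (h4 _ (lt_of_le_of_lt (le_max_right _ _) h6) (h.lg q))
      (h2 q (h3 _ (lt_of_le_of_lt (le_max_left _ _) h5) (h.lf q)))

theorem Sq.closes_gd (h : Sq f g r) {γ0 : Ordinal.{0}} (hγ : Cor f g r γ0) (hγ1 : γ0 < ω₁) :
    Closes (Gd f g r γ0) := by
  classical
  have c1 := closes_rel (fun a b d => ∀ p, f p = a → g p = b → r p < d) (by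
    intro a ha b hb
    by_cases hp : ∃ p, f p = a ∧ g p = b
    · obtain ⟨p, h1, h2⟩ := hp
      refine ⟨succ (r p), omega1_succ (h.rank_lt (h1 ▸ ha) (h2 ▸ hb)), ?_⟩
      intro q h3 h4
      rw [h.inj q p (h3.trans h1.symm) (h4.trans h2.symm)]
      exact Order.lt_succ _
    · exact ⟨0, omega1_pos, fun p h1 h2 => absurd ⟨p, h1, h2⟩ hp⟩)
  have c2 := closes_rel (fun a _ d => ∀ p, f p = a → a ∉ Sc f g → g p < ω₁ → g p < d) (by
    intro a ha b hb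
    by_cases hS : a ∈ Sc f g
    · exact ⟨0, omega1_pos, fun p _ h1 => absurd hS h1⟩
    · have : ∃ β < ω₁, ∀ p, f p = a → β < g p → ω₁ ≤ g p := by
        by_contra hcon
        push Not at hcon
        exact hS ⟨ha, fun β hβ => by
          obtain ⟨p, h1, h2, h3⟩ := hcon β hβ
          exact ⟨p, h1, h2, h3⟩⟩
      obtain ⟨β, hβ, h1⟩ := this
      refine ⟨succ β, omega1_succ hβ, fun p hp _ hlt => ?_⟩
      rw [Order.lt_succ_iff]
      by_contra hcon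
      push Not at hcon
      exact absurd hlt (not_lt.2 (h1 p hp hcon)))
  have c3 := closes_rel (fun z y d => z ∈ Sc f g → ∃ p, f p = z ∧ g p = d ∧ y < d ∧ y ≤ r p) (by
    intro z hz y hy
    by_cases hS : z ∈ Sc f g
    · obtain ⟨p, h1, h2, h3, h4⟩ := h.club_col hS y hy
      exact ⟨g p, h3, fun _ => ⟨p, h1, rfl, h2, h4⟩⟩
    · exact ⟨0, omega1_pos, fun h1 => absurd h1 hS⟩)
  have c4 := closes_rel (fun _ y d => (∃ p, f p = g p ∧ g p = d ∧ y < d ∧ y ≤ r p) ∨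
      (∀ p, f p = g p → f p < ω₁ → f p < d)) (by
    intro z hz y hy
    by_cases hD : ∀ β < ω₁, ∃ p, f p = g p ∧ β < g p ∧ g p < ω₁
    · obtain ⟨p, h1, h2, h3, h4⟩ := h.club (φ := id) continuous_id hD y hy y hy
      exact ⟨g p, h3, Or.inl ⟨p, h1, rfl, h2, h4⟩⟩
    · push Not at hD
      obtain ⟨β, hβ, h1⟩ := hD
      refine ⟨succ β, omega1_succ hβ, Or.inr fun p hp hlt => ?_⟩
      rw [Order.lt_succ_iff]
      by_contra hcon
      push Not at hcon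
      exact absurd hlt (not_lt.2 (hp ▸ h1 p hp (hp ▸ hcon))))
  have c5 := closes_rel (fun z y d => ∀ p0, g p0 = ω₁ → f p0 = z → z ∈ Sc f g → γ0 < z →
      ∃ q, y < d ∧ r p0 ≤ r q ∧ ((f q = d ∧ g q = ω₁) ∨ (f q = ω₁ ∧ g q = d))) (by
    intro z hz y hy
    by_cases hp : ∃ p0, g p0 = ω₁ ∧ f p0 = z ∧ z ∈ Sc f g ∧ γ0 < z
    · obtain ⟨p0, h1, h2, h3, h4⟩ := hp
      obtain ⟨p, hp1, hp2, hp3⟩ := hγ p0 (h2 ▸ h4) (h1 ▸ hγ1)
      have hne : p0 ≠ p := by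
        rintro rfl
        exact absurd hz (by rw [← h2, hp1]; exact lt_irrefl _)
      have hN : {q : X | y < f q ∧ y < g q} ∈ 𝓝 p := by
        refine Filter.inter_mem (h.cf.continuousAt.preimage_mem_nhds (isOpen_Ioi.mem_nhds ?_))
          (h.cg.continuousAt.preimage_mem_nhds (isOpen_Ioi.mem_nhds ?_))
        · rw [hp1]; exact hy
        · rw [hp2]; exact hy
      obtain ⟨q, hq, hqne, hqr⟩ := h.rb p _ (hp3 hne) _ hN
      have hω : ω₁ ≤ r p0 := h.sc_rank (h2 ▸ h3) h1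
      have huniq : ∀ p1, g p1 = ω₁ → f p1 = z → p1 = p0 :=
        fun p1 h5 h6 => h.inj p1 p0 (h6.trans h2.symm) (h5.trans h1.symm)
      rcases (h.lg q).lt_or_eq with h5 | h5
      · rcases (h.lf q).lt_or_eq with h6 | h6
        · exact absurd (h.rank_lt h6 h5) (not_lt.2 (hω.trans hqr))
        · refine ⟨g q, h5, fun p1 h7 h8 _ _ => ⟨q, hq.2, ?_, Or.inr ⟨h6, rfl⟩⟩⟩
          rw [huniq p1 h7 h8]; exact hqr
      · have h6 : f q < ω₁ := by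
          rcases (h.lf q).lt_or_eq with h6 | h6
          · exact h6
          · exact absurd (h.inj q p (h6.trans hp1.symm) (h5.trans hp2.symm)) hqne
        refine ⟨f q, h6, fun p1 h7 h8 _ _ => ⟨q, hq.1, ?_, Or.inl ⟨rfl, h5⟩⟩⟩
        rw [huniq p1 h7 h8]; exact hqr
    · exact ⟨0, omega1_pos, fun p0 h1 h2 h3 h4 => absurd ⟨p0, h1, h2, h3, h4⟩ hp⟩)
  refine ((((c1.and c2).and c3).and c4).and c5).mono ?_
  rintro δ hδ ⟨⟨⟨⟨h1, h2⟩, h3⟩, h4⟩, h5⟩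
  have hpos : ∀ a : Ordinal.{0}, a < δ → (0 : Ordinal.{0}) < δ := fun a ha => lt_of_le_of_lt zero_le ha
  refine ⟨?_, ?_, ?_, ?_, ?_⟩
  · intro p hf hg
    obtain ⟨d, hd, h6⟩ := h1 _ hf _ hg
    exact (h6 p rfl rfl).trans hd
  · intro p hf hS hg
    obtain ⟨d, hd, h6⟩ := h2 _ hf _ (hpos _ hf)
    exact (h6 p rfl hS hg).trans hd
  · intro z hz hzδ y hy
    obtain ⟨d, hd, h6⟩ := h3 z hzδ y hy
    obtain ⟨p, h7, h8, h9, h10⟩ := h6 hz
    exact ⟨p, h7, h8 ▸ h9, h8 ▸ hd, h10⟩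
  · intro p hfg hfδ y hy
    obtain ⟨d, hd, h6⟩ := h4 y hy y hy
    rcases h6 with ⟨p', h7, h8, h9, h10⟩ | h6
    · exact ⟨p', h7, h8 ▸ h9, h8 ▸ hd, h10⟩
    · exact absurd ((h6 p hfg (hfδ ▸ hδ)).trans hd) (by rw [hfδ]; exact lt_irrefl _)
  · intro p0 hg hf hS hγ0 y hy
    obtain ⟨d, hd, h6⟩ := h5 _ hf y hy
    obtain ⟨q, h7, h8, h9⟩ := h6 p0 hg rfl hS hγ0
    exact ⟨q, d, h7, hd, h8, h9⟩

theorem Gd.mem_sc {γ0 δ : Ordinal.{0}} (hG : Gd f g r γ0 δ) (hδ : δ < ω₁) {p : X} (hf : f p < δ)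
    (hg : g p = δ) : f p ∈ Sc f g := by
  by_contra hcon
  exact absurd (hG.g2 p hf hcon (hg ▸ hδ)) (by rw [hg]; exact lt_irrefl _)

theorem Sq.point (h : Sq f g r) {γ0 δ : Ordinal.{0}} (hG : Gd f g r γ0 δ) {z : Ordinal.{0}}
    (hz : z ∈ Sc f g) (hzδ : z < δ) : ∃ p, f p = z ∧ g p = δ := by
  refine h.lim_point (φ := fun _ => z) continuous_const (lt_of_le_of_lt zero_le hzδ) fun l hl => ?_
  obtain ⟨p, h1, h2, h3, _⟩ := hG.g3 z hz hzδ l hl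
  exact ⟨p, h1, h2, h3⟩

theorem Sq.rank_ge (h : Sq f g r) {γ0 δ : Ordinal.{0}} (hG : Gd f g r γ0 δ) {p : X}
    (hz : f p ∈ Sc f g) (hzδ : f p < δ) (hp : g p = δ) : δ ≤ r p := by
  refine le_of_forall_lt fun β hβ => ?_
  refine h.lim_rank (φ := fun _ => f p) continuous_const (lt_of_le_of_lt zero_le hzδ)
    (fun l hl => ?_) rfl hp
  obtain ⟨q, h1, h2, h3, h4⟩ := hG.g3 _ hz hzδ _ (max_lt hl hβ)
  exact ⟨q, h1, lt_of_le_of_lt (le_max_left _ _) h2, h3, (le_max_right _ _).trans h4⟩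

theorem Sq.rank_ge_diag (h : Sq f g r) {γ0 δ : Ordinal.{0}} (hG : Gd f g r γ0 δ) (hδ : 0 < δ) {p : X}
    (hf : f p = δ) (hg : g p = δ) : δ ≤ r p := by
  refine le_of_forall_lt fun β hβ => ?_
  refine h.lim_rank (φ := id) continuous_id hδ (fun l hl => ?_) (p := p) hf hg
  obtain ⟨q, h1, h2, h3, h4⟩ := hG.g4 p (hf.trans hg.symm) hf _ (max_lt hl hβ)
  exact ⟨q, h1, lt_of_le_of_lt (le_max_left _ _) h2, h3, (le_max_right _ _).trans h4⟩

/-- points on the top edge over bounded columns -/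
theorem Sq.top_iso (h : Sq f g r) {γ0 : Ordinal.{0}} (hC : Closes (Gd f g r γ0)) {p : X}
    (hf : f p < ω₁) (hS : f p ∉ Sc f g) (hg : g p = ω₁) :
    r p < ω₁ ∧ ∃ N ∈ 𝓝 p, ∀ q ∈ N, g q = ω₁ := by
  obtain ⟨δ, h1, h2, hG⟩ := hC.exists hf
  have h3 : ∃ A ∈ 𝓝 (f p), ∀ z ∈ A, z < δ → z ∉ Sc f g := by
    by_contra hcon
    push Not at hcon
    obtain ⟨q, hq1, hq2⟩ := h.cl (f p) δ (fun A hA B hB => by
      obtain ⟨z, hz, hzδ, hzS⟩ := hcon A hA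
      obtain ⟨q, h4, h5⟩ := h.point hG hzS hzδ
      exact ⟨q, h4 ▸ hz, by rw [h5]; exact mem_of_mem_nhds hB⟩)
    exact hS (hq1 ▸ hG.mem_sc h2 (hq1 ▸ h1) hq2)
  obtain ⟨A, hA, h4⟩ := h3
  have hN : {q : X | f q ∈ A ∧ f q < δ ∧ δ < g q} ∈ 𝓝 p := by
    have e1 := h.cf.continuousAt.preimage_mem_nhds hA
    have e2 := h.cf.continuousAt.preimage_mem_nhds (isOpen_Iio.mem_nhds h1)
    have hlt : δ < g p := by rw [hg]; exact h2
    have e3 := h.cg.continuousAt.preimage_mem_nhds (x := p) (isOpen_Ioi.mem_nhds (Set.mem_Ioi.2 hlt))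
    exact Filter.inter_mem e1 (Filter.inter_mem e2 e3)
  have h5 : ∀ q ∈ {q : X | f q ∈ A ∧ f q < δ ∧ δ < g q}, g q = ω₁ := by
    rintro q ⟨h6, h7, h8⟩
    by_contra hne
    have := hG.g2 q h7 (h4 _ h6 h7) (lt_of_le_of_ne (h.lg q) hne)
    exact lt_asymm h8 this
  refine ⟨h.rank_countable hN ?_, _, hN, h5⟩
  refine Set.MapsTo.countable_of_injOn (f := f) (t := Set.Iic δ) ?_ ?_ ?_
  · rintro q ⟨_, h7, _⟩
    exact h7.le
  · intro q hq q' hq' he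
    exact h.inj q q' he ((h5 q hq).trans (h5 q' hq').symm)
  · have := countable_Iic h2
    exact Set.to_countable _

theorem Sq.formula (h : Sq f g r) {γ0 δ : Ordinal.{0}} (hC : Closes (Gd f g r γ0))
    (hG : Gd f g r γ0 δ) (hδ : δ < ω₁) : ∀ x, x < δ → x ∈ Sc f g → ∀ p p', f p = x → g p = ω₁ →
    f p' = x → g p' = δ → r p' = δ + (r p - ω₁) := by
  intro x
  induction x using WellFoundedLT.induction with
  | ind x ih =>
    intro hx hS p p' hp1 hp2 hp1' hp2'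
    have hω : ω₁ ≤ r p := h.sc_rank (hp1 ▸ hS) hp2
    have hδr : δ ≤ r p' := h.rank_ge hG (hp1' ▸ hS) (hp1' ▸ hx) hp2'
    apply le_antisymm
    · by_contra hcon
      push Not at hcon
      obtain ⟨N0, hN0, hN0'⟩ := h.ra p
      obtain ⟨A, hA, B, hB, hAB⟩ := h.nb p N0 hN0
      rw [hp1] at hA
      rw [hp2] at hB
      have hN : {q : X | f q ∈ A ∧ f q ≤ x ∧ g q ≤ δ} ∈ 𝓝 p' := by
        have e1 := h.cf.continuousAt.preimage_mem_nhds (x := p') (hp1'.symm ▸ hA)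
        have e2 := h.cf.continuousAt.preimage_mem_nhds (x := p') ((isOpen_Iic' x).mem_nhds
          (Set.mem_Iic.2 hp1'.le))
        have e3 := h.cg.continuousAt.preimage_mem_nhds (x := p') ((isOpen_Iic' δ).mem_nhds
          (Set.mem_Iic.2 hp2'.le))
        exact Filter.inter_mem e1 (Filter.inter_mem e2 e3)
      obtain ⟨q, ⟨hqA, hqx, hqδ⟩, hqne, hqr⟩ := h.rb p' _ hcon _ hN
      have hδq : δ ≤ r q := le_trans le_self_add hqr
      have h1 : g q = δ := by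
        rcases hqδ.lt_or_eq with h2 | h2
        · exact absurd (hG.g1 q (lt_of_le_of_lt hqx hx) h2) (not_lt.2 hδq)
        · exact h2
      have h2 : f q < x := by
        rcases hqx.lt_or_eq with h3 | h3
        · exact h3
        · exact absurd (h.inj q p' (h3.trans hp1'.symm) (h1.trans hp2'.symm)) hqne
      have h3 : f q ∈ Sc f g := hG.mem_sc hδ (h2.trans hx) h1
      obtain ⟨q0, h4, h5⟩ := h.sc_point h3
      have h6 : r q0 < r p := by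
        refine hN0' q0 (hAB q0 (by rw [h4]; exact hqA) (by rw [h5]; exact mem_of_mem_nhds hB)) ?_
        rintro rfl
        rw [h4] at hp1
        exact absurd h2 (by rw [hp1]; exact lt_irrefl _)
      have h7 : ω₁ ≤ r q0 := h.sc_rank (h4.symm ▸ h3) h5
      have h8 := ih (f q) h2 (h2.trans hx) h3 q0 q h4 h5 rfl h1
      rw [h8] at hqr
      have h9 : r p - ω₁ ≤ r q0 - ω₁ := (add_le_add_iff_left δ).1 hqr
      have h10 : ω₁ + (r p - ω₁) ≤ ω₁ + (r q0 - ω₁) := (add_le_add_iff_left _).2 h9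
      rw [Ordinal.add_sub_cancel_of_le hω, Ordinal.add_sub_cancel_of_le h7] at h10
      exact absurd h6 (not_lt.2 h10)
    · by_contra hcon
      push Not at hcon
      obtain ⟨σ, hσ⟩ : ∃ σ, r p' = δ + σ := ⟨r p' - δ, (Ordinal.add_sub_cancel_of_le hδr).symm⟩
      rw [hσ] at hcon
      have h1 : σ < r p - ω₁ := (add_lt_add_iff_left δ).1 hcon
      have h2 : ω₁ + σ < r p := by
        rw [← Ordinal.add_sub_cancel_of_le hω]
        exact (add_lt_add_iff_left _).2 h1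
      refine absurd (h.lt_of_near p' (r p') fun A hA B hB => ?_) (lt_irrefl _)
      rw [hp1'] at hA
      rw [hp2'] at hB
      have hN : {q : X | f q ∈ A ∧ f q ≤ x} ∈ 𝓝 p := by
        have e1 := h.cf.continuousAt.preimage_mem_nhds (x := p) (hp1.symm ▸ hA)
        have e2 := h.cf.continuousAt.preimage_mem_nhds (x := p) ((isOpen_Iic' x).mem_nhds
          (Set.mem_Iic.2 hp1.le))
        exact Filter.inter_mem e1 e2
      obtain ⟨q0, ⟨hqA, hqx⟩, hqne, hqr⟩ := h.rb p _ h2 _ hN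
      have hω0 : ω₁ ≤ r q0 := le_trans le_self_add hqr
      have hxω : x < ω₁ := hx.trans hδ
      have h3 : g q0 = ω₁ := by
        rcases (h.lg q0).lt_or_eq with h4 | h4
        · exact absurd (h.rank_lt (lt_of_le_of_lt hqx hxω) h4) (not_lt.2 hω0)
        · exact h4
      have h4 : f q0 < x := by
        rcases hqx.lt_or_eq with h5 | h5
        · exact h5
        · exact absurd (h.inj q0 p (h5.trans hp1.symm) (h3.trans hp2.symm)) hqne
      have h5 : f q0 ∈ Sc f g := by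
        by_contra hcon2
        exact absurd (h.top_iso hC (h4.trans hxω) hcon2 h3).1 (not_lt.2 hω0)
      obtain ⟨q, h6, h7⟩ := h.point hG h5 (h4.trans hx)
      have h8 := ih (f q0) h4 (h4.trans hx) h5 q0 q rfl h3 h6 h7
      refine ⟨q, ?_, by rw [h6]; exact hqA, by rw [h7]; exact mem_of_mem_nhds hB, ?_⟩
      · rintro rfl
        exact absurd h4 (by rw [← h6, hp1']; exact lt_irrefl _)
      · rw [h8, hσ]
        refine (add_le_add_iff_left δ).2 ?_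
        rw [← Ordinal.add_sub_cancel_of_le hω0] at hqr
        exact (add_le_add_iff_left _).1 hqr

theorem Sq.diag_gt (h : Sq f g r) {γ0 δ : Ordinal.{0}} (hC : Closes (Gd f g r γ0))
    (hC' : Closes (Gd g f r γ0)) (hG : Gd f g r γ0 δ) (hG' : Gd g f r γ0 δ) (hδ : δ < ω₁)
    {p q : X} (hp : f p = δ) (hp' : g p = δ) (hq : f q < δ) (hq' : g q = δ) (hγ : γ0 < f q) :
    r q < r p := by
  have hS : f q ∈ Sc f g := hG.mem_sc hδ hq hq'
  obtain ⟨q', h1, h2⟩ := h.sc_point hS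
  have hω : ω₁ ≤ r q' := h.sc_rank (h1.symm ▸ hS) h2
  have hrq := h.formula hC hG hδ (f q) hq hS q' q h1 h2 rfl hq'
  have hδ0 : 0 < δ := lt_of_le_of_lt zero_le hq
  refine h.lt_of_near p (r q) fun A hA B hB => ?_
  rw [hp] at hA
  rw [hp'] at hB
  obtain ⟨l, hl, h3⟩ := nhd_lt hA hδ0
  obtain ⟨l', hl', h4⟩ := nhd_lt hB hδ0
  obtain ⟨q2, d, hd1, hd2, hd3, hd4⟩ := hG.g5 q' h2 (h1.symm ▸ hq) (h1.symm ▸ hS) (h1.symm ▸ hγ) _
    (max_lt hl hl')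
  have key : ∀ s : Ordinal.{0}, ω₁ ≤ s → r q' ≤ s → r q ≤ δ + (s - ω₁) := by
    intro s hs1 hs2
    rw [hrq]
    refine (add_le_add_iff_left δ).2 ?_
    rw [← Ordinal.add_sub_cancel_of_le hω, ← Ordinal.add_sub_cancel_of_le hs1] at hs2
    exact (add_le_add_iff_left _).1 hs2
  rcases hd4 with ⟨h5, h6⟩ | ⟨h5, h6⟩
  · have h7 : d ∈ Sc f g := by
      by_contra hcon
      exact absurd (h.top_iso hC (p := q2) (by rw [h5]; exact hd2.trans hδ) (by rw [h5]; exact hcon)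
        h6).1 (not_lt.2 (hω.trans hd3))
    obtain ⟨q3, h8, h9⟩ := h.point hG h7 hd2
    have h10 := h.formula hC hG hδ d hd2 h7 q2 q3 h5 h6 h8 h9
    refine ⟨q3, ?_, ?_, ?_, ?_⟩
    · rintro rfl
      exact absurd hd2 (by rw [← h8, hp]; exact lt_irrefl _)
    · exact h3 _ (by rw [h8]; exact lt_of_le_of_lt (le_max_left _ _) hd1) (by rw [h8]; exact hd2.le)
    · rw [h9]; exact mem_of_mem_nhds hB
    · rw [h10]; exact key _ (hω.trans hd3) hd3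
  · have h7 : d ∈ Sc g f := by
      by_contra hcon
      exact absurd (h.swap.top_iso hC' (p := q2) (by rw [h6]; exact hd2.trans hδ)
        (by rw [h6]; exact hcon) h5).1 (not_lt.2 (hω.trans hd3))
    obtain ⟨q3, h8, h9⟩ := h.swap.point hG' h7 hd2
    have h10 := h.swap.formula hC' hG' hδ d hd2 h7 q2 q3 h6 h5 h8 h9
    refine ⟨q3, ?_, ?_, ?_, ?_⟩
    · rintro rfl
      exact absurd hd2 (by rw [← h8, hp']; exact lt_irrefl _)
    · rw [h9]; exact mem_of_mem_nhds hA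
    · exact h4 _ (by rw [h8]; exact lt_of_le_of_lt (le_max_right _ _) hd1) (by rw [h8]; exact hd2.le)
    · rw [h10]; exact key _ (hω.trans hd3) hd3

end OM72
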