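import Mathlib
import Pool.Agent.OM_72.Club

set_option autoImplicit false
set_option linter.all false

/-! The canonical clopen selector of a closed subspace of `(ω₁+1)²`. -/

open Ordinal Set Order Topology Filter

namespace OM72

open Pool.Agent.R736.SK

variable {X : Type} [TopologicalSpace X] {f g r : X → Ordinal.{0}}

/-- the largest interval ending in `x` on which the points of the top edge have rank less than the
point over `x` (and which respects `γ0`) -/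
def J (f g r : X → Ordinal.{0}) (γ0 x : Ordinal.{0}) : Set Ordinal.{0} :=
  {u | u ≤ x ∧ (γ0 < x → γ0 < u) ∧
    ∀ p, g p = ω₁ → u ≤ f p → f p < x → ∃ p', f p' = x ∧ g p' = ω₁ ∧ r p < r p'}

theorem J_self (γ0 x : Ordinal.{0}) : x ∈ J f g r γ0 x :=
  ⟨le_rfl, id, fun _ _ h1 h2 => absurd h2 (not_lt.2 h1)⟩

theorem J_trans {γ0 x u : Ordinal.{0}} (hu : u ∈ J f g r γ0 x) : J f g r γ0 u ⊆ J f g r γ0 x := by
  rintro v ⟨h1, h2, h3⟩
  obtain ⟨h4, h5, h6⟩ := hu
  refine ⟨h1.trans h4, fun h => h2 (h5 h), fun p hp h7 h8 => ?_⟩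
  rcases lt_or_ge (f p) u with h9 | h9
  · obtain ⟨p1, h10, h11, h12⟩ := h3 p hp h7 h9
    rcases h4.lt_or_eq with h13 | h13
    · obtain ⟨p2, h14, h15, h16⟩ := h6 p1 h11 h10.ge (h10 ▸ h13)
      exact ⟨p2, h14, h15, h12.trans h16⟩
    · exact ⟨p1, h10.trans h13, h11, h12⟩
  · exact h6 p hp h9 h8

theorem Sq.J_open (h : Sq f g r) (γ0 x : Ordinal.{0}) : IsOpen (J f g r γ0 x) := by
  rw [isOpen_iff_mem_nhds]
  rintro u ⟨h1, h2, h3⟩
  have key : ∃ A ∈ 𝓝 u, ∀ p, g p = ω₁ → f p ∈ A → f p < u →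
      ∃ p0, f p0 = u ∧ g p0 = ω₁ ∧ r p < r p0 := by
    by_cases hc : ∃ p0, f p0 = u ∧ g p0 = ω₁
    · obtain ⟨p0, h4, h5⟩ := hc
      obtain ⟨N, hN, h6⟩ := h.ra p0
      obtain ⟨A, hA, B, hB, h7⟩ := h.nb p0 N hN
      rw [h4] at hA
      rw [h5] at hB
      refine ⟨A, hA, fun p hp hpA hlt => ⟨p0, h4, h5, h6 p (h7 p hpA (by
        rw [hp]; exact mem_of_mem_nhds hB)) ?_⟩⟩
      rintro rfl
      exact absurd hlt (by rw [h4]; exact lt_irrefl _)
    · by_contra hcon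
      push Not at hcon
      apply hc
      apply h.cl
      intro A hA B hB
      obtain ⟨p, hp, hpA, _⟩ := hcon A hA
      exact ⟨p, hpA, by rw [hp]; exact mem_of_mem_nhds hB⟩
  obtain ⟨A, hA, hA'⟩ := key
  obtain ⟨A', hA1, hA2⟩ := convex_nhd hA
  have hB : {v : Ordinal.{0} | γ0 < x → γ0 < v} ∈ 𝓝 u := by
    by_cases hx : γ0 < x
    · filter_upwards [isOpen_Ioi.mem_nhds (Set.mem_Ioi.2 (h2 hx))] with v hv _ using hv
    · exact Filter.univ_mem' (fun v hv => absurd hv hx)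
  filter_upwards [hA1, hB] with v hv1 hv2
  refine ⟨(hA2 v hv1).1.trans h1, hv2, fun p hp h4 h5 => ?_⟩
  rcases lt_or_ge (f p) u with h6 | h6
  · obtain ⟨p0, h7, h8, h9⟩ := hA' p hp ((hA2 v hv1).2 _ h4 h6.le) h6
    rcases h1.lt_or_eq with h10 | h10
    · obtain ⟨p', h11, h12, h13⟩ := h3 p0 h8 h7.ge (h7 ▸ h10)
      exact ⟨p', h11, h12, h9.trans h13⟩
    · exact ⟨p0, h7.trans h10, h8, h9⟩
  · exact h3 p hp h6 h5

theorem Sq.J_closed (h : Sq f g r) (γ0 x : Ordinal.{0}) : IsClosed (J f g r γ0 x) := by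
  rw [← isOpen_compl_iff, isOpen_iff_mem_nhds]
  intro u hu
  by_cases h1 : u ≤ x
  · by_cases h2 : γ0 < x → γ0 < u
    · have h3 : ¬ ∀ p, g p = ω₁ → u ≤ f p → f p < x → ∃ p', f p' = x ∧ g p' = ω₁ ∧ r p < r p' :=
        fun h3 => hu ⟨h1, h2, h3⟩
      push Not at h3
      obtain ⟨p, h4, h5, h6, h7⟩ := h3
      filter_upwards [(isOpen_Iic' (f p)).mem_nhds (Set.mem_Iic.2 h5)] with v hv hvJ
      obtain ⟨p', h8, h9, h10⟩ := hvJ.2.2 p h4 hv h6
      exact absurd h10 (not_lt.2 (h7 p' h8 h9))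
    · push Not at h2
      filter_upwards [(isOpen_Iic' γ0).mem_nhds (Set.mem_Iic.2 h2.2)] with v hv hvJ
      exact absurd (hvJ.2.1 h2.1) (not_lt.2 hv)
  · push Not at h1
    filter_upwards [isOpen_Ioi.mem_nhds (Set.mem_Ioi.2 h1)] with v hv hvJ
    exact absurd hvJ.1 (not_le.2 hv)

/-- top edge points over bounded columns -/
def TT (f g : X → Ordinal.{0}) (p : X) : Prop := g p = ω₁ ∧ f p < ω₁ ∧ f p ∉ Sc f g

theorem Sq.tt_of (h : Sq f g r) {γ0 : Ordinal.{0}} (hC : Closes (Gd f g r γ0)) {p q : X}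
    (hp : TT f g p) (hq : f q ∈ J f g r γ0 (f p)) (hq' : g q = ω₁) : TT f g q := by
  obtain ⟨h1, h2, h3⟩ := hp
  refine ⟨hq', lt_of_le_of_lt hq.1 h2, fun hS => ?_⟩
  rcases hq.1.lt_or_eq with h4 | h4
  · obtain ⟨p', h5, h6, h7⟩ := hq.2.2 q hq' le_rfl h4
    have : p' = p := h.inj p' p h5 (h6.trans h1.symm)
    subst this
    exact absurd (h7.trans (h.top_iso hC h2 h3 h1).1) (not_lt.2 (h.sc_rank hS hq'))
  · exact h3 (h4 ▸ hS)

/-- the clopen set attached to a special point -/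
def V (f g r : X → Ordinal.{0}) (γ0 : Ordinal.{0}) (p : X) : Set X :=
  {q | f q ∈ J f g r γ0 (f p) ∧ g q ∈ J g f r γ0 (g p) ∧ (TT f g p → g q = ω₁) ∧
    (TT g f p → f q = ω₁)}

theorem Sq.V_clopen (h : Sq f g r) {γ0 : Ordinal.{0}} (hC : Closes (Gd f g r γ0))
    (hC' : Closes (Gd g f r γ0)) (p : X) : IsClopen (V f g r γ0 p) := by
  classical
  constructor
  · have e1 : IsClosed {q : X | f q ∈ J f g r γ0 (f p)} := (h.J_closed γ0 (f p)).preimage h.cf
    have e2 : IsClosed {q : X | g q ∈ J g f r γ0 (g p)} := (h.swap.J_closed γ0 (g p)).preimage h.cg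
    have e3 : IsClosed {q : X | TT f g p → g q = ω₁} := by
      by_cases ht : TT f g p
      · simp only [ht, true_imp_iff]
        exact isClosed_eq h.cg continuous_const
      · simp only [ht, false_imp_iff, Set.setOf_true]
        exact isClosed_univ
    have e4 : IsClosed {q : X | TT g f p → f q = ω₁} := by
      by_cases ht : TT g f p
      · simp only [ht, true_imp_iff]
        exact isClosed_eq h.cf continuous_const
      · simp only [ht, false_imp_iff, Set.setOf_true]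
        exact isClosed_univ
    exact e1.inter (e2.inter (e3.inter e4))
  · rw [isOpen_iff_mem_nhds]
    rintro q ⟨h1, h2, h3, h4⟩
    have e1 := ((h.J_open γ0 (f p)).preimage h.cf).mem_nhds h1
    have e2 := ((h.swap.J_open γ0 (g p)).preimage h.cg).mem_nhds h2
    have e3 : {w : X | TT f g p → g w = ω₁} ∈ 𝓝 q := by
      by_cases ht : TT f g p
      · obtain ⟨h5, h6, h7⟩ := h.tt_of hC ht h1 (h3 ht)
        obtain ⟨N, hN, h8⟩ := (h.top_iso hC h6 h7 h5).2
        exact Filter.mem_of_superset hN fun w hw _ => h8 w hw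
      · exact Filter.univ_mem' fun w hw => absurd hw ht
    have e4 : {w : X | TT g f p → f w = ω₁} ∈ 𝓝 q := by
      by_cases ht : TT g f p
      · obtain ⟨h5, h6, h7⟩ := h.swap.tt_of hC' ht h2 (h4 ht)
        obtain ⟨N, hN, h8⟩ := (h.swap.top_iso hC' h6 h7 h5).2
        exact Filter.mem_of_superset hN fun w hw _ => h8 w hw
      · exact Filter.univ_mem' fun w hw => absurd hw ht
    filter_upwards [e1, e2, e3, e4] with w a1 a2 a3 a4 using ⟨a1, a2, a3, a4⟩

theorem Sq.canonA (h : Sq f g r) {γ0 δ : Ordinal.{0}} (hC : Closes (Gd f g r γ0))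
    (hδ : δ = ω₁ ∨ (δ < ω₁ ∧ Gd f g r γ0 δ)) {p q : X} (hp : g p = δ) (hp' : f p < δ)
    (h1 : f q ∈ J f g r γ0 (f p)) (h2 : g q ≤ δ) (h3 : TT f g p → g q = ω₁) (hne : q ≠ p) :
    r q < r p := by
  have hlt : g q = δ → f q < f p := by
    intro h4
    rcases h1.1.lt_or_eq with h5 | h5
    · exact h5
    · exact absurd (h.inj q p h5 (h4.trans hp.symm)) hne
  rcases hδ with rfl | ⟨hδ, hG⟩
  · have key : g q = ω₁ → r q < r p := by
      intro h4
      obtain ⟨p', h5, h6, h7⟩ := h1.2.2 q h4 le_rfl (hlt h4)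
      rwa [h.inj p' p h5 (h6.trans hp.symm)] at h7
    by_cases hS : f p ∈ Sc f g
    · rcases h2.lt_or_eq with h4 | h4
      · exact lt_of_lt_of_le (h.rank_lt (lt_of_le_of_lt h1.1 hp') h4) (h.sc_rank hS hp)
      · exact key h4
    · exact key (h3 ⟨hp, hp', hS⟩)
  · have hS : f p ∈ Sc f g := hG.mem_sc hδ hp' hp
    rcases h2.lt_or_eq with h4 | h4
    · exact lt_of_lt_of_le (hG.g1 q (lt_of_le_of_lt h1.1 hp') h4) (h.rank_ge hG hS hp' hp)
    · have h5 := hlt h4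
      have hSq : f q ∈ Sc f g := hG.mem_sc hδ (h5.trans hp') h4
      obtain ⟨q', h6, h7⟩ := h.sc_point hSq
      obtain ⟨p', h8, h9, h10⟩ := h1.2.2 q' h7 h6.ge (h6 ▸ h5)
      have hω1 : ω₁ ≤ r q' := h.sc_rank (h6.symm ▸ hSq) h7
      have hω2 : ω₁ ≤ r p' := h.sc_rank (h8.symm ▸ hS) h9
      rw [h.formula hC hG hδ _ (h5.trans hp') hSq q' q h6 h7 rfl h4,
        h.formula hC hG hδ _ hp' hS p' p h8 h9 rfl hp]
      refine (add_lt_add_iff_left δ).2 ?_
      by_contra hcon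
      push Not at hcon
      have h11 : ω₁ + (r p' - ω₁) ≤ ω₁ + (r q' - ω₁) := (add_le_add_iff_left _).2 hcon
      rw [Ordinal.add_sub_cancel_of_le hω1, Ordinal.add_sub_cancel_of_le hω2] at h11
      exact absurd h10 (not_lt.2 h11)

theorem Sq.canonC (h : Sq f g r) {γ0 δ : Ordinal.{0}} (hC : Closes (Gd f g r γ0))
    (hC' : Closes (Gd g f r γ0)) (hcor : Cor f g r γ0) (hγδ : γ0 < δ)
    (hδ : δ = ω₁ ∨ (δ < ω₁ ∧ Gd f g r γ0 δ ∧ Gd g f r γ0 δ)) {p q : X} (hp : f p = δ) (hp' : g p = δ)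
    (h1 : f q ∈ J f g r γ0 (f p)) (h2 : g q ∈ J g f r γ0 (g p)) (hne : q ≠ p) : r q < r p := by
  have hf : γ0 < f q := h1.2.1 (hp.symm ▸ hγδ)
  have hg : γ0 < g q := h2.2.1 (hp'.symm ▸ hγδ)
  have hf1 : f q ≤ δ := hp ▸ h1.1
  have hg1 : g q ≤ δ := hp' ▸ h2.1
  rcases hδ with rfl | ⟨hδ, hG, hG'⟩
  · obtain ⟨p', h3, h4, h5⟩ := hcor q hf hg
    have : p' = p := h.inj p' p (h3.trans hp.symm) (h4.trans hp'.symm)
    subst this
    exact h5 hne
  · rcases hf1.lt_or_eq with h3 | h3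
    · rcases hg1.lt_or_eq with h4 | h4
      · exact lt_of_lt_of_le (hG.g1 q h3 h4) (h.rank_ge_diag hG (lt_of_le_of_lt zero_le hγδ) hp hp')
      · exact h.diag_gt hC hC' hG hG' hδ hp hp' h3 h4 hf
    · rcases hg1.lt_or_eq with h4 | h4
      · exact h.swap.diag_gt hC' hC hG' hG hδ hp' hp h4 h3 hg
      · exact absurd (h.inj q p (h3.trans hp.symm) (h4.trans hp'.symm)) hne

theorem enum_nhd {η u : Ordinal.{0}} (e : ℕ → Ordinal.{0}) (he : ∀ a ≤ η, ∃ i, e i = a) (hu : u ≤ η)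
    {A : Set Ordinal.{0}} (hA : A ∈ 𝓝 u) :
    ∃ n, ∀ a, (∀ i < n, (a ≤ e i ↔ u ≤ e i)) → a ∈ A := by
  obtain ⟨i2, hi2⟩ := he u hu
  rcases (zero_le (a := u)).eq_or_lt with h0 | h0
  · refine ⟨i2 + 1, fun a ha => ?_⟩
    have h1 := (ha i2 (Nat.lt_succ_self _)).2 hi2.ge
    rw [hi2, ← h0] at h1
    rw [le_zero_iff.1 h1, h0]
    exact mem_of_mem_nhds hA
  · obtain ⟨l, hl, h1⟩ := nhd_lt hA h0
    obtain ⟨i1, hi1⟩ := he l (hl.le.trans hu)
    refine ⟨max i1 i2 + 1, fun a ha => h1 a ?_ ?_⟩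
    · have h2 := ha i1 (Nat.lt_succ_of_le (le_max_left _ _))
      rw [hi1] at h2
      by_contra hcon
      push Not at hcon
      exact absurd hl (not_lt.2 (h2.1 hcon))
    · have h2 := ha i2 (Nat.lt_succ_of_le (le_max_right _ _))
      rw [hi2] at h2
      exact h2.2 le_rfl

theorem exists_enum : ∃ en : Ordinal.{0} → ℕ → Ordinal.{0}, ∀ η < ω₁, ∀ a ≤ η, ∃ i, en η i = a := by
  have : ∀ η : Ordinal.{0}, ∃ e : ℕ → Ordinal.{0}, η < ω₁ → ∀ a ≤ η, ∃ i, e i = a := by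
    intro η
    by_cases hη : η < ω₁
    · have := countable_Iic hη
      have hne : Nonempty (Set.Iic η) := ⟨⟨η, Set.mem_Iic.2 le_rfl⟩⟩
      obtain ⟨e, he⟩ := exists_surjective_nat (Set.Iic η)
      refine ⟨fun i => (e i).1, fun _ a ha => ?_⟩
      obtain ⟨i, hi⟩ := he ⟨a, ha⟩
      exact ⟨i, congrArg Subtype.val hi⟩
    · exact ⟨fun _ => 0, fun h => absurd h hη⟩
  choose en hen using this
  exact ⟨en, hen⟩

/-- atoms -/
def At (f g : X → Ordinal.{0}) (e : ℕ → Ordinal.{0}) (n : ℕ) (z : X) : Set X :=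
  {w | ∀ i < n, (f w ≤ e i ↔ f z ≤ e i) ∧ (g w ≤ e i ↔ g z ≤ e i)}

theorem Sq.At_clopen (h : Sq f g r) (e : ℕ → Ordinal.{0}) (n : ℕ) (z : X) :
    IsClopen (At f g e n z) := by
  have h1 : ∀ (k : X → Ordinal.{0}), Continuous k → ∀ a, IsClopen {w : X | k w ≤ a ↔ k z ≤ a} := by
    intro k hk a
    have h2 : IsClopen {w : X | k w ≤ a} :=
      ⟨isClosed_Iic.preimage hk, (isOpen_Iic' a).preimage hk⟩
    by_cases hz : k z ≤ a
    · simpa only [hz, iff_true] using h2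
    · have h3 : {w : X | k w ≤ a ↔ k z ≤ a} = {w : X | k w ≤ a}ᶜ := by
        ext w
        simp only [hz, iff_false, Set.mem_setOf_eq, Set.mem_compl_iff]
      rw [h3]
      exact h2.compl
  have h2 : At f g e n z = ⋂ i ∈ Finset.range n, ({w : X | f w ≤ e i ↔ f z ≤ e i} ∩
      {w : X | g w ≤ e i ↔ g z ≤ e i}) := by
    ext w
    simp only [At, Set.mem_setOf_eq, Set.mem_iInter, Finset.mem_range, Set.mem_inter_iff]
  rw [h2]
  exact isClopen_biInter_finset fun i _ => (h1 f h.cf (e i)).inter (h1 g h.cg (e i))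

theorem Sq.exists_selector (h : Sq f g r) : ∃ U : X → Set X, (∀ p, IsClopen (U p)) ∧ (∀ p, p ∈ U p) ∧
    (∀ p, ∀ q ∈ U p, q ≠ p → r q < r p) ∧ (∀ p, ∀ q ∈ U p, U q ⊆ U p) := by
  classical
  obtain ⟨γ0, hγ0, hcor⟩ := h.exists_cor
  have hC := h.closes_gd hcor hγ0
  have hC' := h.swap.closes_gd hcor.swap hγ0
  obtain ⟨F, hF, hF2⟩ := hC.and hC'
  set E : Set Ordinal.{0} := {b | γ0 < b ∧ b < ω₁ ∧ (∀ a < b, succ a < b) ∧
    ∀ a < b, ∀ c < b, F a c < b} with hEdef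
  have hEG : ∀ δ ∈ E, Gd f g r γ0 δ ∧ Gd g f r γ0 δ := fun δ hδ =>
    hF2 δ (lt_of_le_of_lt zero_le hδ.1) hδ.2.1 hδ.2.2.1 hδ.2.2.2
  have hEu : ∀ a < ω₁, ∃ δ ∈ E, a < δ := by
    intro a ha
    obtain ⟨b, hb, hab, hs, h2⟩ := exists_closure F hF (max_lt ha hγ0)
    exact ⟨b, ⟨lt_of_le_of_lt (le_max_right _ _) hab, hb, hs, h2⟩,
      lt_of_le_of_lt (le_max_left _ _) hab⟩
  have hEc : ∀ m < ω₁, m ∉ E → ∃ M ∈ 𝓝 m, ∀ u ∈ M, u ≤ m ∧ ∀ e ∈ E, ¬ (u ≤ e ∧ e ≤ m) := by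
    intro m hm hmE
    rcases (zero_le (a := m)).eq_or_lt with h0 | h0
    · refine ⟨Set.Iic m, (isOpen_Iic' m).mem_nhds (Set.mem_Iic.2 le_rfl), fun u hu => ⟨hu, ?_⟩⟩
      rintro e he ⟨_, h2⟩
      rw [← h0] at h2
      exact absurd (lt_of_lt_of_le he.1 h2) (not_lt.2 zero_le)
    · have h1 : ∃ a < m, ∀ e ∈ E, ¬ (a < e ∧ e ≤ m) := by
        by_contra hcon
        push Not at hcon
        have h2 : ∀ a < m, ∃ e ∈ E, a < e ∧ e < m := by
          intro a ha
          obtain ⟨e, he, h3, h4⟩ := hcon a ha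
          refine ⟨e, he, h3, lt_of_le_of_ne h4 ?_⟩
          rintro rfl
          exact hmE he
        apply hmE
        refine ⟨?_, hm, ?_, ?_⟩
        · obtain ⟨e, he, _, h4⟩ := h2 0 h0
          exact he.1.trans h4
        · intro a ha
          obtain ⟨e, he, h3, h4⟩ := h2 a ha
          exact (he.2.2.1 a h3).trans h4
        · intro a ha c hc
          obtain ⟨e, he, h3, h4⟩ := h2 _ (max_lt ha hc)
          exact (he.2.2.2 a (lt_of_le_of_lt (le_max_left _ _) h3) c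
            (lt_of_le_of_lt (le_max_right _ _) h3)).trans h4
      obtain ⟨a, ha, h2⟩ := h1
      refine ⟨Set.Ioi a ∩ Set.Iic m, Filter.inter_mem (isOpen_Ioi.mem_nhds ha)
        ((isOpen_Iic' m).mem_nhds (Set.mem_Iic.2 le_rfl)), ?_⟩
      rintro u ⟨h3, h4⟩
      refine ⟨h4, fun e he h5 => h2 e he ⟨lt_of_lt_of_le h3 h5.1, h5.2⟩⟩
  obtain ⟨en, hen⟩ := exists_enum
  let mx : X → Ordinal.{0} := fun p => max (f p) (g p)
  have hmx : Continuous mx := h.cf.max h.cg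
  let Spec : X → Prop := fun p => f p = ω₁ ∨ g p = ω₁ ∨ mx p ∈ E
  let nx : X → Ordinal.{0} := fun p => sInf {e | e ∈ E ∧ mx p < e}
  have hns : ∀ p, ¬ Spec p → f p < ω₁ ∧ g p < ω₁ ∧ mx p < ω₁ ∧ mx p ∉ E := by
    intro p hp
    have h1 : f p < ω₁ := lt_of_le_of_ne (h.lf p) fun h2 => hp (Or.inl h2)
    have h2 : g p < ω₁ := lt_of_le_of_ne (h.lg p) fun h2 => hp (Or.inr (Or.inl h2))
    exact ⟨h1, h2, max_lt h1 h2, fun h3 => hp (Or.inr (Or.inr h3))⟩
  have hnx : ∀ p, ¬ Spec p → mx p < nx p ∧ nx p < ω₁ := by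
    intro p hp
    obtain ⟨δ, hδ, hlt⟩ := hEu _ (hns p hp).2.2.1
    have : nx p ∈ {e | e ∈ E ∧ mx p < e} := csInf_mem ⟨δ, hδ, hlt⟩
    exact ⟨this.2, this.1.2.1⟩
  -- neighbourhoods of non-special points
  let B : X → Set X := fun p => {q | f q ∈ J f g r γ0 (f p) ∧ g q ∈ J g f r γ0 (g p) ∧
    (q ≠ p → r q < r p) ∧ ¬ Spec q ∧ nx q = nx p}
  have hB : ∀ p, ¬ Spec p → B p ∈ 𝓝 p := by
    intro p hp
    obtain ⟨h1, h2, h3, h4⟩ := hns p hp
    have e1 := ((h.J_open γ0 (f p)).preimage h.cf).mem_nhds (J_self γ0 (f p))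
    have e2 := ((h.swap.J_open γ0 (g p)).preimage h.cg).mem_nhds (J_self γ0 (g p))
    obtain ⟨N, hN, hN'⟩ := h.ra p
    obtain ⟨M, hM, hM'⟩ := hEc _ h3 h4
    have e3 := hmx.continuousAt.preimage_mem_nhds hM
    filter_upwards [e1, e2, hN, e3] with q a1 a2 a3 a4
    have a5 := hM' _ a4
    have hm1 : mx q < ω₁ := lt_of_le_of_lt a5.1 h3
    refine ⟨a1, a2, hN' q a3, ?_, ?_⟩
    · rintro (h5 | h5 | h5)
      · exact absurd (lt_of_le_of_lt (le_max_left (f q) (g q)) hm1) (by rw [h5]; exact lt_irrefl _)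
      · exact absurd (lt_of_le_of_lt (le_max_right (f q) (g q)) hm1) (by rw [h5]; exact lt_irrefl _)
      · exact a5.2 _ h5 ⟨le_rfl, a5.1⟩
    · have : {e | e ∈ E ∧ mx q < e} = {e | e ∈ E ∧ mx p < e} := by
        ext e
        constructor
        · rintro ⟨h5, h6⟩
          refine ⟨h5, ?_⟩
          by_contra hcon
          push Not at hcon
          exact a5.2 e h5 ⟨h6.le, hcon⟩
        · rintro ⟨h5, h6⟩
          exact ⟨h5, lt_of_le_of_lt a5.1 h6⟩
      simp only [nx, this]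
  have hn : ∀ p, ¬ Spec p → ∃ n, At f g (en (nx p)) n p ⊆ B p ∧
      ∀ m < n, ¬ At f g (en (nx p)) m p ⊆ B p := by
    intro p hp
    have hex : ∃ n, At f g (en (nx p)) n p ⊆ B p := by
      obtain ⟨A, hA, A', hA', h1⟩ := h.nb p _ (hB p hp)
      obtain ⟨h2, h3⟩ := hnx p hp
      have h4 := hen _ h3
      obtain ⟨n1, hn1⟩ := enum_nhd _ h4 ((le_max_left (f p) (g p)).trans h2.le) hA
      obtain ⟨n2, hn2⟩ := enum_nhd _ h4 ((le_max_right (f p) (g p)).trans h2.le) hA'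
      refine ⟨max n1 n2, fun w hw => h1 w (hn1 _ fun i hi => ?_) (hn2 _ fun i hi => ?_)⟩
      · exact (hw i (lt_of_lt_of_le hi (le_max_left _ _))).1
      · exact (hw i (lt_of_lt_of_le hi (le_max_right _ _))).2
    exact ⟨Nat.find hex, Nat.find_spec hex, fun m hm => Nat.find_min hex hm⟩
  choose! n hn1 hn2 using hn
  have hcan : ∀ p, Spec p → ∀ q ∈ V f g r γ0 p, q ≠ p → r q < r p := by
    rintro p hp q ⟨h1, h2, h3, h4⟩ hne
    rcases lt_trichotomy (f p) (g p) with h5 | h5 | h5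
    · have h6 : g p = ω₁ ∨ (g p < ω₁ ∧ Gd f g r γ0 (g p)) := by
        rcases hp with h6 | h6 | h6
        · exact absurd (h.lg p) (not_le.2 (h6 ▸ h5))
        · exact Or.inl h6
        · have : mx p = g p := max_eq_right h5.le
          rw [this] at h6
          exact Or.inr ⟨h6.2.1, (hEG _ h6).1⟩
      exact h.canonA hC h6 rfl h5 h1 h2.1 h3 hne
    · have h6 : f p = ω₁ ∨ (f p < ω₁ ∧ Gd f g r γ0 (f p) ∧ Gd g f r γ0 (f p)) := by
        rcases hp with h6 | h6 | h6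
        · exact Or.inl h6
        · exact Or.inl (h5.trans h6)
        · have : mx p = f p := max_eq_left h5.ge
          rw [this] at h6
          exact Or.inr ⟨h6.2.1, hEG _ h6⟩
      have h7 : γ0 < f p := by
        rcases hp with h7 | h7 | h7
        · rw [h7]; exact hγ0
        · rw [h5, h7]; exact hγ0
        · have : mx p = f p := max_eq_left h5.ge
          rw [this] at h7
          exact h7.1
      exact h.canonC hC hC' hcor h7 h6 rfl h5.symm h1 h2 hne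
    · have h6 : f p = ω₁ ∨ (f p < ω₁ ∧ Gd g f r γ0 (f p)) := by
        rcases hp with h6 | h6 | h6
        · exact Or.inl h6
        · exact absurd (h.lf p) (not_le.2 (h6 ▸ h5))
        · have : mx p = f p := max_eq_left h5.le
          rw [this] at h6
          exact Or.inr ⟨h6.2.1, (hEG _ h6).2⟩
      exact h.swap.canonA hC' h6 rfl h5 h2 h1.1 h4 hne
  refine ⟨fun p => if Spec p then V f g r γ0 p else At f g (en (nx p)) (n p) p, ?_, ?_, ?_, ?_⟩
  · intro p
    by_cases hp : Spec p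
    · simp only [hp, if_true]
      exact h.V_clopen hC hC' p
    · simp only [hp, if_false]
      exact h.At_clopen _ _ _
  · intro p
    by_cases hp : Spec p
    · simp only [hp, if_true]
      exact ⟨J_self _ _, J_self _ _, fun ht => ht.1, fun ht => ht.1⟩
    · simp only [hp, if_false]
      exact fun i _ => ⟨Iff.rfl, Iff.rfl⟩
  · intro p q hq hne
    by_cases hp : Spec p
    · simp only [hp, if_true] at hq
      exact hcan p hp q hq hne
    · simp only [hp, if_false] at hq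
      exact (hn1 p hp hq).2.2.1 hne
  · intro p q hq
    by_cases hp : Spec p
    · simp only [hp, if_true] at hq ⊢
      by_cases hqs : Spec q
      · simp only [hqs, if_true]
        obtain ⟨h1, h2, h3, h4⟩ := hq
        rintro w ⟨h5, h6, h7, h8⟩
        exact ⟨J_trans h1 h5, J_trans h2 h6, fun ht => h7 (h.tt_of hC ht h1 (h3 ht)),
          fun ht => h8 (h.swap.tt_of hC' ht h2 (h4 ht))⟩
      · simp only [hqs, if_false]
        obtain ⟨h1, h2, h3, h4⟩ := hq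
        intro w hw
        obtain ⟨h5, h6, _⟩ := hn1 q hqs hw
        exact ⟨J_trans h1 h5, J_trans h2 h6, fun ht => absurd (Or.inr (Or.inl (h3 ht))) hqs,
          fun ht => absurd (Or.inl (h4 ht)) hqs⟩
    · simp only [hp, if_false] at hq ⊢
      obtain ⟨h1, h2, h3, h4, h5⟩ := hn1 p hp hq
      simp only [h4, if_false]
      by_cases hqp : q = p
      · rw [hqp]
      · have h6 : ∀ k ≤ n p, At f g (en (nx p)) k q = At f g (en (nx p)) k p := by
          intro k hk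
          ext w
          constructor
          · intro hw i hi
            exact ⟨(hw i hi).1.trans (hq i (lt_of_lt_of_le hi hk)).1,
              (hw i hi).2.trans (hq i (lt_of_lt_of_le hi hk)).2⟩
          · intro hw i hi
            exact ⟨(hw i hi).1.trans (hq i (lt_of_lt_of_le hi hk)).1.symm,
              (hw i hi).2.trans (hq i (lt_of_lt_of_le hi hk)).2.symm⟩
        have h7 : n p < n q := by
          by_contra hcon
          push Not at hcon
          have h8 : p ∈ At f g (en (nx q)) (n q) q := by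
            rw [h5, h6 _ hcon]
            exact fun i _ => ⟨Iff.rfl, Iff.rfl⟩
          exact lt_asymm (h3 hqp) ((hn1 q h4 h8).2.2.1 (Ne.symm hqp))
        rw [h5, ← h6 _ le_rfl]
        intro w hw i hi
        exact hw i (hi.trans h7)

end OM72
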